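import Pool.Agent.H23.AccProof

namespace Pool.Agent.Results.MP_a24849_co.Unbounded

open Pool.Agent.H23.Acc

theorem result :
    ¬ ∃ k : ℕ, ∀ (V : Type) [Fintype V] (G : SimpleGraph V) (P : V → Finset (Finset V)),
      IsNbPart G P → gammaA (corona G P) ≤ Fintype.card V + k := by
  rintro ⟨k, hk⟩
  exact absurd (hk (W k) (GB k) (PB k) nbPart) (not_le.2 (big k))

end Pool.Agent.Results.MP_a24849_co.Unbounded
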